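import Pool.Agent.LeoC.CountStmts
import Pool.Agent.Helper52_LeoC.Tcb

/-!
Module ROC of squad LEOC: coordinates of the vectors for a complex form.
-/

set_option autoImplicit false

open Pool.Agent.LeoK Pool.Agent.LeoG

namespace Pool.Agent.LeoC.H31

/-- ROC -/
theorem roc : RocStmt := by
  intro v hv
  obtain ⟨u, hu, huv⟩ := H52.tc_exi v hv
  have hd : 0 < ‖dc u‖ := norm_pos_iff.2 hu
  obtain ⟨D, hD⟩ : ∃ D, D = ‖dc u‖ := ⟨_, rfl⟩
  rw [← hD] at hd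
  obtain ⟨s, hs⟩ : ∃ s, s = Real.sqrt (2 * D) := ⟨_, rfl⟩
  have hs0 : 0 < s := by rw [hs]; exact Real.sqrt_pos.2 (by positivity)
  have hs2 : s ^ 2 = 2 * D := by rw [hs]; exact Real.sq_sqrt (by positivity)
  have hsn : ‖(s : ℂ)‖ = s := by rw [Complex.norm_real, Real.norm_of_nonneg hs0.le]
  have hsc : (s : ℂ) ≠ 0 := by exact_mod_cast hs0.ne'
  refine ⟨u 0 / s, u 1 / s, u 2 / s, u 3 / s, ?_, ?_⟩
  · have h1 : u 0 / s * (u 3 / s) - u 1 / s * (u 2 / s) = (u 0 * u 3 - u 1 * u 2) / (s : ℂ) ^ 2 := by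
      field_simp
    have h2 : ‖u 0 * u 3 - u 1 * u 2‖ = D := by rw [hD]; rfl
    rw [h1, norm_div, norm_pow, hsn, hs2, h2]
    field_simp
  intro X Y
  have e1 : u 0 / s * X + u 1 / s * Y = (u 0 * X + u 1 * Y) / s := by
    field_simp
  have e2 : u 2 / s * X + u 3 / s * Y = (u 2 * X + u 3 * Y) / s := by
    field_simp
  rw [e1, e2]
  constructor
  · rw [← huv, H52.hc_tc u hu, norm_div, norm_div, hsn, div_pow, div_pow, hs2, ← hD]
    field_simp
  · have e3 : ((u 0 * X + u 1 * Y) / s) ^ 3 + ((u 2 * X + u 3 * Y) / s) ^ 3 =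
        gval v X Y / (s : ℂ) ^ 3 := by
      rw [← huv, H52.gval_tc]
      field_simp
    rw [e3, norm_div, norm_pow, hsn]
    have e4 : ‖mm v‖ ^ (1 / 4 : ℝ) ≤ 2 * s ^ 3 := by
      have e5 : ‖mm v‖ = 27 * D ^ 6 := by
        rw [← huv, H52.mm_tc, norm_mul, norm_pow, hD]
        norm_num
      have e6 : ‖mm v‖ ≤ (2 * s ^ 3) ^ 4 := by
        have : (2 * s ^ 3) ^ 4 = 16 * (s ^ 2) ^ 6 := by ring
        rw [this, hs2, e5]
        have h6 : 0 ≤ D ^ 6 := by positivity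
        nlinarith
      calc ‖mm v‖ ^ (1 / 4 : ℝ) ≤ ((2 * s ^ 3) ^ 4) ^ (1 / 4 : ℝ) :=
            Real.rpow_le_rpow (norm_nonneg _) e6 (by norm_num)
        _ = 2 * s ^ 3 := by
            rw [← Real.rpow_natCast (2 * s ^ 3) 4, ← Real.rpow_mul (by positivity)]
            norm_num
    have h7 : 0 < s ^ 3 := by positivity
    calc ‖mm v‖ ^ (1 / 4 : ℝ) * (‖gval v X Y‖ / s ^ 3)
        ≤ 2 * s ^ 3 * (‖gval v X Y‖ / s ^ 3) :=
          mul_le_mul_of_nonneg_right e4 (by positivity)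
      _ = 2 * ‖gval v X Y‖ := by field_simp

end Pool.Agent.LeoC.H31
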